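import Pool.Agent.U307.RAD.Stm

/-!
# Project RAD, package ROT: the operator and rotations
-/

set_option autoImplicit false

open MeasureTheory Filter Topology Set
open scoped ENNReal SchwartzMap ComplexConjugate

namespace Pool.Agent.U255.RAD

open Pool.Agent.U307.RAD

/-- rotation invariance of the integral -/
theorem int_rot (a : ℂ) (ha : ‖a‖ = 1) (g : ℂ → ℂ) : ∫ w : ℂ, g (a * w) = ∫ w : ℂ, g w := by
  let c : Circle := ⟨a, by simpa [Submonoid.unitSphere] using ha⟩
  have h1 : MeasurePreserving (rotation c) volume volume := (rotation c).measurePreserving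
  have h2 : MeasurableEmbedding (rotation c) := (rotation c).toHomeomorph.measurableEmbedding
  have h3 := h1.integral_comp h2 g
  rw [← h3]
  rfl

theorem inner_rot (a y ξ : ℂ) (ha : ‖a‖ = 1) :
    (a * y).re * (a * ξ).re + (a * y).im * (a * ξ).im = y.re * ξ.re + y.im * ξ.im := by
  have h : a.re ^ 2 + a.im ^ 2 = 1 := by
    have h1 : Complex.normSq a = 1 := by rw [Complex.normSq_eq_norm_sq, ha]; norm_num
    rw [Complex.normSq_apply] at h1
    linarith
  simp only [Complex.mul_re, Complex.mul_im]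
  linear_combination (y.re * ξ.re + y.im * ξ.im) * h

theorem conj_mul_self (a : ℂ) (ha : ‖a‖ = 1) : a * starRingEnd ℂ a = 1 := by
  rw [Complex.mul_conj, Complex.normSq_eq_norm_sq, ha]
  norm_num

/-- the Fourier transform -/
noncomputable def FF (f : SchwartzMap ℂ ℂ) (ξ : ℂ) : ℂ :=
  ∫ w : ℂ, Complex.exp (-(2 * (Real.pi : ℂ) * Complex.I *
    ((w.re * ξ.re + w.im * ξ.im : ℝ) : ℂ))) * f w

theorem FF_rot (l : ℕ) (f : SchwartzMap ℂ ℂ) (hf : Typ l f) (a : ℂ) (ha : ‖a‖ = 1) (ξ : ℂ) :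
    FF f (a * ξ) = (starRingEnd ℂ a) ^ l * FF f ξ := by
  unfold FF
  rw [← int_rot a ha, ← integral_const_mul]
  refine integral_congr_ae (Eventually.of_forall fun y => ?_)
  simp only
  rw [inner_rot a y ξ ha, hf a y ha]
  ring

theorem TS_rot (n l : ℕ) (f : SchwartzMap ℂ ℂ) (hf : Typ l f) (a : ℂ) (ha : ‖a‖ = 1) (z : ℂ) :
    TS n f (a * z) = (starRingEnd ℂ a) ^ (2 * n + l) * TS n f z := by
  have h1 := conj_mul_self a ha
  have ha0 : a ≠ 0 := by
    rintro rfl
    simp at ha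
  have e : ∀ z, TS n f z = ∫ ξ : ℂ, Complex.exp (2 * (Real.pi : ℂ) * Complex.I *
      ((z.re * ξ.re + z.im * ξ.im : ℝ) : ℂ)) * ((starRingEnd ℂ ξ / ξ) ^ n * FF f ξ) := fun z => rfl
  rw [e, e, ← int_rot a ha, ← integral_const_mul]
  refine integral_congr_ae (Eventually.of_forall fun η => ?_)
  simp only
  rw [inner_rot a z η ha, FF_rot l f hf a ha η]
  have h2 : starRingEnd ℂ (a * η) / (a * η) = (starRingEnd ℂ a) ^ 2 * (starRingEnd ℂ η / η) := by
    rw [map_mul]
    have h3 : starRingEnd ℂ a = (starRingEnd ℂ a) ^ 2 * a := by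
      linear_combination (-(starRingEnd ℂ a)) * h1
    rw [mul_div_mul_comm]
    congr 1
    rw [div_eq_iff ha0]
    exact h3
  rw [h2, mul_pow, ← pow_mul, pow_add]
  ring

theorem norm_ee (t : ℝ) : ‖ee t‖ = 1 := by
  unfold ee
  rw [Complex.norm_exp]
  simp

theorem t_ROT : S_ROT := by
  intro n l f hf z
  unfold AA PP
  have h : ∀ t : ℝ, ee t ^ (2 * n + l) * TS n f (ee t * z) = TS n f z := by
    intro t
    rw [TS_rot n l f hf (ee t) (norm_ee t) z, ← mul_assoc, ← mul_pow, conj_mul_self _ (norm_ee t),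
      one_pow, one_mul]
  simp only [h]
  simp

end Pool.Agent.U255.RAD
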